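import Mathlib

open MeasureTheory TopologicalSpace Finset

namespace Pool.Agent.Results.MP_17ecd9_gt.Discontinuity

section Kernel
variable {ι : Type*} [DecidableEq ι]

lemma agree_prod (S S' U : Finset ι) :
    (∏ i ∈ U, (if (i ∈ S ↔ i ∈ S') then (1 : ℝ) else 0)) = if S ∩ U = S' ∩ U then 1 else 0 := by
  split_ifs with h
  · refine Finset.prod_eq_one fun i hi => ?_
    rw [if_pos]
    constructor
    · intro hS
      have : i ∈ S ∩ U := by simp [hS, hi]
      rw [h] at this
      exact (Finset.mem_inter.1 this).1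
    · intro hS
      have : i ∈ S' ∩ U := by simp [hS, hi]
      rw [← h] at this
      exact (Finset.mem_inter.1 this).1
  · rw [Finset.prod_eq_zero_iff]
    by_contra hcon
    push Not at hcon
    apply h
    ext i
    simp only [Finset.mem_inter]
    constructor
    · rintro ⟨hS, hU⟩
      have := hcon i hU
      simp only [ne_eq, ite_eq_right_iff, one_ne_zero, imp_false, not_not] at this
      exact ⟨this.1 hS, hU⟩
    · rintro ⟨hS, hU⟩
      have := hcon i hU
      simp only [ne_eq, ite_eq_right_iff, one_ne_zero, imp_false, not_not] at this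
      exact ⟨this.2 hS, hU⟩

variable [Fintype ι]

lemma kernel_expand (q : ℝ) (S S' : Finset ι) :
    q ^ (symmDiff S S').card =
      ∑ U ∈ (Finset.univ : Finset ι).powerset,
        ((1 - q) ^ U.card * q ^ (Finset.univ \ U).card) * (if S ∩ U = S' ∩ U then 1 else 0) := by
  have h1 : q ^ (symmDiff S S').card =
      ∏ i : ι, ((1 - q) * (if (i ∈ S ↔ i ∈ S') then (1 : ℝ) else 0) + q) := by
    have : ∀ i : ι, ((1 - q) * (if (i ∈ S ↔ i ∈ S') then (1 : ℝ) else 0) + q) =
        if i ∈ symmDiff S S' then q else 1 := by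
      intro i
      by_cases h1 : i ∈ S <;> by_cases h2 : i ∈ S' <;> simp [Finset.mem_symmDiff, h1, h2]
    rw [Finset.prod_congr rfl (fun i _ => this i)]
    rw [Finset.prod_ite_mem]
    simp
  rw [h1, Finset.prod_add]
  refine Finset.sum_congr rfl fun U _ => ?_
  rw [Finset.prod_mul_distrib, agree_prod]
  simp only [Finset.prod_const]
  ring

lemma fibre_square {α : Type*} [Fintype α] (s : α → Finset ι) (x : α → ℝ) (U : Finset ι) :
    ∑ P : Finset ι, (∑ a, if s a ∩ U = P then x a else 0) ^ 2 =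
      ∑ a, ∑ b, x a * x b * (if s a ∩ U = s b ∩ U then 1 else 0) := by
  simp_rw [sq, Finset.sum_mul_sum]
  rw [Finset.sum_comm]
  refine Finset.sum_congr rfl fun a _ => ?_
  rw [Finset.sum_comm]
  refine Finset.sum_congr rfl fun b _ => ?_
  by_cases h : s a ∩ U = s b ∩ U
  · rw [Finset.sum_eq_single (s a ∩ U)]
    · simp [h]
    · intro P _ hP
      rw [if_neg (Ne.symm hP)]
      simp
    · simp
  · rw [if_neg h, mul_zero]
    refine Finset.sum_eq_zero fun P _ => ?_
    by_cases h1 : s a ∩ U = P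
    · have : ¬ (s b ∩ U = P) := fun h3 => h (h1.trans h3.symm)
      simp [this]
    · simp [h1]

/-- The quadratic form of the kernel `q ^ |S ∆ S'|` is a nonnegative combination of squares. -/
lemma quad_expand {α : Type*} [Fintype α] (q : ℝ) (s : α → Finset ι) (x : α → ℝ) :
    ∑ a, ∑ b, x a * x b * q ^ (symmDiff (s a) (s b)).card =
      ∑ U ∈ (Finset.univ : Finset ι).powerset,
        ((1 - q) ^ U.card * q ^ (Finset.univ \ U).card) *
          ∑ P : Finset ι, (∑ a, if s a ∩ U = P then x a else 0) ^ 2 := by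
  calc ∑ a, ∑ b, x a * x b * q ^ (symmDiff (s a) (s b)).card
      = ∑ a, ∑ b, ∑ U ∈ (Finset.univ : Finset ι).powerset,
          ((1 - q) ^ U.card * q ^ (Finset.univ \ U).card) *
            (x a * x b * (if s a ∩ U = s b ∩ U then 1 else 0)) := by
        refine Finset.sum_congr rfl fun a _ => Finset.sum_congr rfl fun b _ => ?_
        rw [kernel_expand, Finset.mul_sum]
        refine Finset.sum_congr rfl fun U _ => ?_
        ring
    _ = ∑ U ∈ (Finset.univ : Finset ι).powerset, ∑ a, ∑ b,
          ((1 - q) ^ U.card * q ^ (Finset.univ \ U).card) *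
            (x a * x b * (if s a ∩ U = s b ∩ U then 1 else 0)) := by
        rw [Finset.sum_comm]
        rw [Finset.sum_congr rfl (fun b _ => Finset.sum_comm)]
        rw [Finset.sum_comm]
        refine Finset.sum_congr rfl fun U _ => ?_
        rw [Finset.sum_comm]
    _ = _ := by
        refine Finset.sum_congr rfl fun U _ => ?_
        rw [fibre_square, Finset.mul_sum]
        refine Finset.sum_congr rfl fun a _ => ?_
        rw [Finset.mul_sum]

lemma quad_nonneg {α : Type*} [Fintype α] {q : ℝ} (h0 : 0 ≤ q) (h1 : q ≤ 1)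
    (s : α → Finset ι) (x : α → ℝ) :
    0 ≤ ∑ a, ∑ b, x a * x b * q ^ (symmDiff (s a) (s b)).card := by
  rw [quad_expand]
  refine Finset.sum_nonneg fun U _ => mul_nonneg ?_ (Finset.sum_nonneg fun P _ => sq_nonneg _)
  exact mul_nonneg (pow_nonneg (by linarith) _) (pow_nonneg h0 _)

lemma quad_pos {α : Type*} [Fintype α] {q : ℝ} (h0 : 0 ≤ q) (h1 : q < 1)
    (s : α → Finset ι) (hs : Function.Injective s) (x : α → ℝ) (a₀ : α) (hx : x a₀ ≠ 0) :
    0 < ∑ a, ∑ b, x a * x b * q ^ (symmDiff (s a) (s b)).card := by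
  rw [quad_expand]
  refine Finset.sum_pos' (fun U _ => mul_nonneg (mul_nonneg (pow_nonneg (by linarith) _)
    (pow_nonneg h0 _)) (Finset.sum_nonneg fun P _ => sq_nonneg _)) ?_
  refine ⟨Finset.univ, by simp, ?_⟩
  refine mul_pos (by simp only [sdiff_self, Finset.bot_eq_empty, Finset.card_empty, pow_zero, mul_one]; exact pow_pos (by linarith) _) ?_
  refine Finset.sum_pos' (fun P _ => sq_nonneg _) ⟨s a₀, by simp, ?_⟩
  have : (∑ a, if s a ∩ Finset.univ = s a₀ then x a else 0) = x a₀ := by
    rw [Finset.sum_eq_single a₀]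
    · simp
    · intro b _ hb
      rw [if_neg]
      intro h
      apply hb
      apply hs
      simpa using h
    · simp
  rw [this]
  positivity

/-- The uniform weighting of the cube. -/
lemma cube_weighting {q : ℝ} (S : Finset ι) :
    ∑ S' : Finset ι, q ^ (symmDiff S S').card = (1 + q) ^ Fintype.card ι := by
  have hbij : ∑ S' : Finset ι, q ^ (symmDiff S S').card = ∑ S' : Finset ι, q ^ S'.card := by
    refine Fintype.sum_bijective (fun S' => symmDiff S S') ?_ _ _ (fun _ => rfl)
    exact (symmDiff_right_involutive S).bijective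
  rw [hbij]
  have := Finset.prod_add (fun _ : ι => q) (fun _ : ι => (1:ℝ)) Finset.univ
  simp only [Finset.prod_const, Finset.card_univ, one_pow, mul_one, Finset.powerset_univ] at this
  rw [← this, add_comm]

end Kernel

section Defs
variable {M : Type*} [MetricSpace M]

/-- The similarity matrix `Z_A = (e^{-d(a,b)})` of a finite subset `A` of a metric space. -/
noncomputable def simMat (A : Finset M) : Matrix A A ℝ :=
  fun a b => Real.exp (-dist (a : M) (b : M))

/-- `M` is positive definite: `Z_A` is positive definite for every non-empty finite `A ⊆ M`. -/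
def PosDefSpace (M : Type*) [MetricSpace M] : Prop :=
  ∀ A : Finset M, A.Nonempty → (simMat A).PosDef

open Classical in
/-- The magnitude of a finite subset: the sum of all entries of the inverse of `Z_A`. -/
noncomputable def finMag (A : Finset M) : ℝ := ∑ a, ∑ b, (simMat A)⁻¹ a b

/-- The magnitude of a subset `K`: the supremum (in the extended reals) of the magnitudes of the
non-empty finite subsets of `K`. -/
noncomputable def setMag (K : Set M) : EReal :=
  ⨆ A : {A : Finset M // A.Nonempty ∧ (A : Set M) ⊆ K}, (finMag (A : Finset M) : EReal)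

/-- Tractable metric spaces: positive definite, Heine-Borel, and every closed ball has finite
magnitude. -/
structure Tractable (M : Type*) [MetricSpace M] : Prop where
  posDef : PosDefSpace M
  heineBorel : ∀ K : Set M, IsClosed K → Bornology.IsBounded K → IsCompact K
  magFinite : ∀ (x : M) (r : ℝ), 0 ≤ r → setMag (Metric.closedBall x r) < ⊤

/-- Non-empty finite subsets of `M`, with the Hausdorff metric. -/
abbrev FinPlus (M : Type*) [MetricSpace M] : Type _ :=
  {K : NonemptyCompacts M // (K : Set M).Finite}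

/-- Magnitude on non-empty finite subsets. -/
noncomputable def magFin (M : Type*) [MetricSpace M] (K : FinPlus M) : ℝ :=
  finMag K.2.toFinset

/-- Magnitude on non-empty compact subsets. -/
noncomputable def magCmp (M : Type*) [MetricSpace M] (K : NonemptyCompacts M) : ℝ :=
  (setMag (K : Set M)).toReal

/-- A singleton, as a point of `FinPlus M`. -/
def finSingleton (p : M) : FinPlus M := ⟨{p}, by simp⟩

open Classical in
lemma finMag_eq_sum {A : Finset M} (hA : (simMat A).PosDef) (w : A → ℝ)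
    (hw : (simMat A).mulVec w = 1) : finMag A = ∑ a, w a := by
  have hu : IsUnit (simMat A).det := by
    have := hA.isUnit
    exact (Matrix.isUnit_iff_isUnit_det _).1 this
  have h1 : ∀ a, ∑ b, (simMat A)⁻¹ a b = ((simMat A)⁻¹).mulVec 1 a := by
    intro a
    simp [Matrix.mulVec, dotProduct]
  unfold finMag
  simp_rw [h1]
  rw [← hw, Matrix.mulVec_mulVec, Matrix.nonsing_inv_mul _ hu, Matrix.one_mulVec]

open Classical in
lemma exists_weighting {A : Finset M} (hA : (simMat A).PosDef) :
    ∃ w : A → ℝ, (simMat A).mulVec w = 1 ∧ finMag A = ∑ a, w a := by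
  have hu : IsUnit (simMat A).det := by
    have := hA.isUnit
    exact (Matrix.isUnit_iff_isUnit_det _).1 this
  refine ⟨((simMat A)⁻¹).mulVec 1, ?_, ?_⟩
  · rw [Matrix.mulVec_mulVec, Matrix.mul_nonsing_inv _ hu, Matrix.one_mulVec]
  · apply finMag_eq_sum hA
    rw [Matrix.mulVec_mulVec, Matrix.mul_nonsing_inv _ hu, Matrix.one_mulVec]

/-- A finite subset that embeds in a scaled cube is positive definite. -/
lemma posDef_of_cube {N : ℕ} (hN : 0 < N) (A : Finset M) (s : A → Finset (Fin N))
    (hs : Function.Injective s)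
    (hd : ∀ a b : A, dist (a : M) (b : M) = (symmDiff (s a) (s b)).card / (N : ℝ)) :
    (simMat A).PosDef := by
  classical
  set q : ℝ := Real.exp (-(1 / (N : ℝ))) with hq
  have hq0 : 0 ≤ q := (Real.exp_pos _).le
  have hq1 : q < 1 := by
    rw [hq]
    rw [← Real.exp_zero]
    apply Real.exp_lt_exp.2
    have : (0:ℝ) < N := by exact_mod_cast hN
    simpa using this
  have hZ : ∀ a b : A, simMat A a b = q ^ (symmDiff (s a) (s b)).card := by
    intro a b
    simp only [simMat, hd, hq]
    rw [← Real.exp_nat_mul]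
    congr 1
    ring
  refine Matrix.PosDef.of_dotProduct_mulVec_pos ?_ ?_
  · ext a b
    simp only [Matrix.conjTranspose_apply, star_trivial, simMat, dist_comm]
  · intro x hx
    obtain ⟨a₀, ha₀⟩ : ∃ a, x a ≠ 0 := by
      by_contra hcon
      push Not at hcon
      exact hx (funext hcon)
    have heq : star x ⬝ᵥ (simMat A).mulVec x =
        ∑ a, ∑ b, x a * x b * q ^ (symmDiff (s a) (s b)).card := by
      simp only [dotProduct, Matrix.mulVec, star_trivial]
      refine Finset.sum_congr rfl fun a _ => ?_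
      rw [Finset.mul_sum]
      refine Finset.sum_congr rfl fun b _ => ?_
      rw [hZ]
      ring
    rw [heq]
    exact quad_pos hq0 hq1 s hs x a₀ ha₀

/-- A finite subset that embeds in a scaled cube has magnitude at most `e^{1/2}`. -/
lemma finMag_le_of_cube {N : ℕ} (hN : 0 < N) (A : Finset M) (s : A → Finset (Fin N))
    (hs : Function.Injective s)
    (hd : ∀ a b : A, dist (a : M) (b : M) = (symmDiff (s a) (s b)).card / (N : ℝ)) :
    finMag A ≤ Real.exp (1 / 2) := by
  classical
  have hPD := posDef_of_cube hN A s hs hd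
  obtain ⟨w, hw, hmag⟩ := exists_weighting hPD
  set q : ℝ := Real.exp (-(1 / (N : ℝ))) with hq
  have hq0 : 0 < q := Real.exp_pos _
  have hNpos : (0:ℝ) < N := by exact_mod_cast hN
  have hq1 : q < 1 := by
    rw [hq]
    rw [← Real.exp_zero]
    apply Real.exp_lt_exp.2
    simpa using hNpos
  have hZ : ∀ a b : A, simMat A a b = q ^ (symmDiff (s a) (s b)).card := by
    intro a b
    simp only [simMat, hd, hq]
    rw [← Real.exp_nat_mul]
    congr 1
    ring
  have hw' : ∀ a, ∑ b, q ^ (symmDiff (s a) (s b)).card * w b = 1 := by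
    intro a
    have := congrFun hw a
    simpa [Matrix.mulVec, dotProduct, hZ] using this
  set c : ℝ := 1 / (1 + q) ^ N with hc
  have hcube : ∀ S : Finset (Fin N), ∑ S' : Finset (Fin N), q ^ (symmDiff S S').card * c = 1 := by
    intro S
    rw [← Finset.sum_mul, cube_weighting, Fintype.card_fin, hc]
    have : (1 + q) ^ N ≠ 0 := by positivity
    field_simp
  -- the quadratic form at `w - u`
  have hnn := quad_nonneg (α := A ⊕ Finset (Fin N)) hq0.le hq1.le
    (Sum.elim s id) (Sum.elim w (fun _ => -c))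
  simp only [Fintype.sum_sum_type, Sum.elim_inl, Sum.elim_inr, id] at hnn
  have e1 : ∑ a, ∑ b, w a * w b * q ^ (symmDiff (s a) (s b)).card = ∑ a, w a := by
    refine Finset.sum_congr rfl fun a _ => ?_
    have : ∑ b, w a * w b * q ^ (symmDiff (s a) (s b)).card
        = w a * ∑ b, q ^ (symmDiff (s a) (s b)).card * w b := by
      rw [Finset.mul_sum]
      exact Finset.sum_congr rfl fun b _ => by ring
    rw [this, hw', mul_one]
  have e2 : ∑ a, ∑ S' : Finset (Fin N), w a * -c * q ^ (symmDiff (s a) S').card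
      = -∑ a, w a := by
    rw [← Finset.sum_neg_distrib]
    refine Finset.sum_congr rfl fun a _ => ?_
    have : ∑ S' : Finset (Fin N), w a * -c * q ^ (symmDiff (s a) S').card
        = -w a * ∑ S' : Finset (Fin N), q ^ (symmDiff (s a) S').card * c := by
      rw [Finset.mul_sum]
      exact Finset.sum_congr rfl fun b _ => by ring
    rw [this, hcube, mul_one]
  have e3 : ∑ S' : Finset (Fin N), ∑ a, -c * w a * q ^ (symmDiff S' (s a)).card
      = -∑ a, w a := by
    rw [← e2, Finset.sum_comm]
    refine Finset.sum_congr rfl fun a _ => Finset.sum_congr rfl fun S' _ => ?_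
    rw [symmDiff_comm]
    ring
  have e4 : ∑ S : Finset (Fin N), ∑ S' : Finset (Fin N), -c * -c * q ^ (symmDiff S S').card
      = (2 / (1 + q)) ^ N := by
    have : ∀ S : Finset (Fin N), ∑ S' : Finset (Fin N), -c * -c * q ^ (symmDiff S S').card = c := by
      intro S
      have h : ∑ S' : Finset (Fin N), -c * -c * q ^ (symmDiff S S').card
          = c * ∑ S' : Finset (Fin N), q ^ (symmDiff S S').card * c := by
        rw [Finset.mul_sum]
        exact Finset.sum_congr rfl fun b _ => by ring
      rw [h, hcube, mul_one]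
    simp_rw [this]
    simp only [Finset.sum_const, Finset.card_univ, Fintype.card_finset, Fintype.card_fin,
      nsmul_eq_mul, hc]
    rw [div_pow]
    push_cast
    ring
  simp only [Finset.sum_add_distrib, e1, e2, e3, e4] at hnn
  have hle : finMag A ≤ (2 / (1 + q)) ^ N := by rw [hmag]; linarith
  refine hle.trans ?_
  have hexp : Real.exp (1 / 2) = (Real.exp (1 / (2 * N))) ^ N := by
    rw [← Real.exp_nat_mul]
    congr 1
    field_simp
  rw [hexp]
  refine pow_le_pow_left₀ (by positivity) ?_ N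
  set r : ℝ := Real.exp (-(1 / (2 * N))) with hr
  have hqr : q = r ^ 2 := by
    rw [hq, hr, ← Real.exp_nat_mul]
    congr 1
    push_cast
    field_simp
  have hrinv : Real.exp (1 / (2 * (N:ℝ))) = 1 / r := by
    rw [hr, Real.exp_neg]
    simp
  have hr0 : 0 < r := Real.exp_pos _
  rw [hrinv, hqr, div_le_div_iff₀ (by positivity) hr0]
  nlinarith [sq_nonneg (1 - r)]

end Defs

section Concrete

/-- The space `L₁([0,1], ℝ)`. -/
abbrev L1 : Type := Lp ℝ 1 (volume.restrict (Set.Icc (0:ℝ) 1))

/-- The measure. -/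
noncomputable abbrev mu : Measure ℝ := volume.restrict (Set.Icc (0:ℝ) 1)

/-- The union of the dyadic intervals `[i/2^J,(i+1)/2^J)`, `i ∈ S`. -/
def dy (J : ℕ) (S : Finset (Fin (2 ^ J))) : Set ℝ :=
  {x | 0 ≤ x ∧ ∃ i ∈ S, ⌊(2:ℝ) ^ J * x⌋₊ = (i : ℕ)}

lemma measurableSet_dy (J : ℕ) (S : Finset (Fin (2 ^ J))) : MeasurableSet (dy J S) := by
  have : dy J S = Set.Ici 0 ∩ ⋃ i ∈ S, (fun x : ℝ => ⌊(2:ℝ) ^ J * x⌋₊) ⁻¹' {(i : ℕ)} := by
    ext x
    simp [dy]
  rw [this]
  refine measurableSet_Ici.inter (Finset.measurableSet_biUnion _ fun i _ => ?_)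
  have hm : Measurable (fun x : ℝ => ⌊(2:ℝ) ^ J * x⌋₊) :=
    Nat.measurable_floor.comp (measurable_const.mul measurable_id)
  exact hm (measurableSet_singleton _)

/-- The indicator function of a dyadic set as an element of `L₁`. -/
noncomputable def ind (J : ℕ) (S : Finset (Fin (2 ^ J))) : L1 :=
  indicatorConstLp 1 (measurableSet_dy J S) (measure_ne_top mu _) (1:ℝ)

lemma dy_single (J : ℕ) (i : Fin (2 ^ J)) :
    dy J {i} = Set.Ico ((i:ℝ) / 2 ^ J) (((i:ℝ) + 1) / 2 ^ J) := by
  have h2 : (0:ℝ) < 2 ^ J := by positivity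
  ext x
  simp only [dy, Finset.mem_singleton, exists_eq_left, Set.mem_ofPred_eq, Set.mem_Ico]
  constructor
  · rintro ⟨h0, hi⟩
    have h1 : (i:ℕ) ≤ (2:ℝ) ^ J * x := by rw [← hi]; exact Nat.floor_le (by positivity)
    have h3 : (2:ℝ) ^ J * x < (i:ℕ) + 1 := by rw [← hi]; exact Nat.lt_floor_add_one _
    constructor
    · rw [div_le_iff₀ h2]; linarith
    · rw [lt_div_iff₀ h2]; linarith
  · rintro ⟨h1, h3⟩
    rw [div_le_iff₀ h2] at h1
    rw [lt_div_iff₀ h2] at h3
    have h0 : 0 ≤ x := by
      by_contra hx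
      push Not at hx
      have : x * 2 ^ J < 0 := mul_neg_of_neg_of_pos hx h2
      have h5 : (0:ℝ) ≤ (i:ℕ) := Nat.cast_nonneg _
      linarith
    refine ⟨h0, ?_⟩
    rw [Nat.floor_eq_iff (by positivity)]
    constructor <;> linarith

lemma mu_dy_single (J : ℕ) (i : Fin (2 ^ J)) : mu (dy J {i}) = ENNReal.ofReal (1 / 2 ^ J) := by
  have h2 : (0:ℝ) < 2 ^ J := by positivity
  have hsub : dy J {i} ⊆ Set.Icc (0:ℝ) 1 := by
    rw [dy_single]
    intro x hx
    have h0 : (0:ℝ) ≤ (i:ℝ) / 2 ^ J := by positivity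
    have hi : ((i:ℕ):ℝ) + 1 ≤ 2 ^ J := by
      have := i.2
      exact_mod_cast this
    have h1 : ((i:ℝ) + 1) / 2 ^ J ≤ 1 := by
      rw [div_le_one h2]; exact hi
    exact ⟨h0.trans hx.1, (hx.2.le).trans h1⟩
  rw [Measure.restrict_apply (measurableSet_dy J _), Set.inter_eq_left.2 hsub, dy_single,
    Real.volume_Ico]
  congr 1
  ring

lemma dy_eq_biUnion (J : ℕ) (S : Finset (Fin (2 ^ J))) : dy J S = ⋃ i ∈ S, dy J {i} := by
  ext x
  simp only [dy, Finset.mem_singleton, exists_eq_left, Set.mem_ofPred_eq, Set.mem_iUnion]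
  constructor
  · rintro ⟨h0, i, hi, h⟩
    exact ⟨i, hi, h0, h⟩
  · rintro ⟨i, hi, h0, h⟩
    exact ⟨h0, i, hi, h⟩

lemma mu_dy (J : ℕ) (S : Finset (Fin (2 ^ J))) : mu.real (dy J S) = S.card / 2 ^ J := by
  have h2 : (0:ℝ) < 2 ^ J := by positivity
  have hdis : (S : Set (Fin (2 ^ J))).PairwiseDisjoint (fun i => dy J {i}) := by
    intro i _ k _ hik
    rw [Function.onFun, Set.disjoint_left]
    rintro x ⟨_, a, ha, hxa⟩ ⟨_, b, hb, hxb⟩
    rw [Finset.mem_singleton] at ha hb
    subst ha hb
    exact hik (Fin.ext (hxa.symm.trans hxb))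
  rw [Measure.real, dy_eq_biUnion, measure_biUnion_finset hdis (fun i _ => measurableSet_dy J _)]
  simp_rw [mu_dy_single]
  rw [Finset.sum_const, nsmul_eq_mul, ENNReal.toReal_mul, ENNReal.toReal_natCast,
    ENNReal.toReal_ofReal (by positivity)]
  ring

lemma dy_symmDiff (J : ℕ) (S S' : Finset (Fin (2 ^ J))) :
    symmDiff (dy J S) (dy J S') = dy J (symmDiff S S') := by
  ext x
  simp only [dy, Set.mem_symmDiff, Set.mem_ofPred_eq, Finset.mem_symmDiff]
  constructor
  · rintro (⟨⟨h0, i, hi, h⟩, h'⟩ | ⟨⟨h0, i, hi, h⟩, h'⟩)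
    · exact ⟨h0, i, Or.inl ⟨hi, fun hi' => h' ⟨h0, i, hi', h⟩⟩, h⟩
    · exact ⟨h0, i, Or.inr ⟨hi, fun hi' => h' ⟨h0, i, hi', h⟩⟩, h⟩
  · rintro ⟨h0, i, (⟨hi, hi'⟩ | ⟨hi, hi'⟩), h⟩
    · refine Or.inl ⟨⟨h0, i, hi, h⟩, ?_⟩
      rintro ⟨_, k, hk, h'⟩
      have : i = k := Fin.ext (h.symm.trans h')
      exact hi' (this ▸ hk)
    · refine Or.inr ⟨⟨h0, i, hi, h⟩, ?_⟩
      rintro ⟨_, k, hk, h'⟩
      have : i = k := Fin.ext (h.symm.trans h')
      exact hi' (this ▸ hk)

lemma dist_ind (J : ℕ) (S S' : Finset (Fin (2 ^ J))) :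
    dist (ind J S) (ind J S') = (symmDiff S S').card / ((2 ^ J : ℕ) : ℝ) := by
  rw [ind, ind, dist_indicatorConstLp_eq_norm, norm_indicatorConstLp (by simp) (by simp)]
  simp only [norm_one, ENNReal.toReal_one, one_mul, div_one, Real.rpow_one]
  rw [dy_symmDiff, mu_dy]
  push_cast
  rfl

lemma dy_refine {j J : ℕ} (h : j ≤ J) (S : Finset (Fin (2 ^ j))) :
    dy j S = dy J (Finset.univ.filter fun i : Fin (2 ^ J) =>
      ∃ k ∈ S, (i : ℕ) / 2 ^ (J - j) = (k : ℕ)) := by
  ext x
  simp only [dy, Set.mem_ofPred_eq, Finset.mem_filter, Finset.mem_univ, true_and]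
  have hfl : ⌊(2:ℝ) ^ j * x⌋₊ = ⌊(2:ℝ) ^ J * x⌋₊ / 2 ^ (J - j) := by
    rw [← Nat.floor_div_natCast]
    congr 1
    push_cast
    have : (2:ℝ) ^ J = 2 ^ j * 2 ^ (J - j) := by
      rw [← pow_add, Nat.add_sub_cancel' h]
    rw [this]
    field_simp
  constructor
  · rintro ⟨h0, k, hk, hx⟩
    have hlt : ⌊(2:ℝ) ^ J * x⌋₊ < 2 ^ J := by
      have h3 : ⌊(2:ℝ) ^ J * x⌋₊ / 2 ^ (J - j) < 2 ^ j := by
        rw [← hfl, hx]; exact k.2
      rw [Nat.div_lt_iff_lt_mul (by positivity)] at h3
      calc _ < 2 ^ j * 2 ^ (J - j) := h3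
        _ = 2 ^ J := by rw [← pow_add, Nat.add_sub_cancel' h]
    exact ⟨h0, ⟨_, hlt⟩, ⟨k, hk, by rw [← hx, hfl]⟩, rfl⟩
  · rintro ⟨h0, i, ⟨k, hk, hik⟩, hx⟩
    exact ⟨h0, k, hk, by rw [hfl, hx, hik]⟩

lemma ind_congr {j J : ℕ} {S : Finset (Fin (2 ^ j))} {S' : Finset (Fin (2 ^ J))}
    (h : dy j S = dy J S') : ind j S = ind J S' := by
  unfold ind
  congr 1

lemma ind_refine {j J : ℕ} (h : j ≤ J) (S : Finset (Fin (2 ^ j))) :
    ∃ S' : Finset (Fin (2 ^ J)), ind j S = ind J S' :=
  ⟨_, ind_congr (dy_refine h S)⟩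

lemma ind_empty (J : ℕ) : ind J ∅ = 0 := by
  have h : dy J ∅ = ∅ := by ext x; simp [dy]
  unfold ind
  simp only [h]
  exact indicatorConstLp_empty

/-- The counterexample: `0` together with the indicator functions of all dyadic intervals. -/
noncomputable def T : Set L1 :=
  insert 0 (Set.range fun p : Σ j : ℕ, Fin (2 ^ j) => ind p.1 {p.2})

lemma exists_level (t : L1) (ht : t ∈ T) : ∃ j, ∃ S : Finset (Fin (2 ^ j)), t = ind j S := by
  rcases ht with rfl | ⟨p, rfl⟩
  · exact ⟨0, ∅, (ind_empty 0).symm⟩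
  · exact ⟨p.1, {p.2}, rfl⟩

lemma exists_cube (A : Finset T) : ∃ J : ℕ, ∃ s : A → Finset (Fin (2 ^ J)),
    Function.Injective s ∧
    ∀ a b : A, dist (a : T) (b : T) = (symmDiff (s a) (s b)).card / ((2 ^ J : ℕ) : ℝ) := by
  choose lev S hS using exists_level
  let J := A.sup fun t => lev t.1 t.2
  have hle : ∀ a : A, lev a.1.1 a.1.2 ≤ J := fun a =>
    Finset.le_sup (f := fun t : T => lev t.1 t.2) a.2
  choose s hs using fun a : A => ind_refine (hle a) (S a.1.1 a.1.2)
  have hd : ∀ a b : A, dist (a : T) (b : T) = (symmDiff (s a) (s b)).card / ((2 ^ J : ℕ) : ℝ) := by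
    intro a b
    rw [Subtype.dist_eq, hS a.1.1 a.1.2, hS b.1.1 b.1.2, hs, hs, dist_ind]
  refine ⟨J, s, ?_, hd⟩
  intro a b hab
  have : dist (a : T) (b : T) = 0 := by rw [hd, hab]; simp
  exact Subtype.ext (dist_eq_zero.1 this)


lemma norm_ind_single (p : Σ j : ℕ, Fin (2 ^ j)) : dist (ind p.1 {p.2}) 0 = 1 / 2 ^ p.1 := by
  rw [← ind_empty p.1, dist_ind]
  have : symmDiff ({p.2} : Finset (Fin (2 ^ p.1))) ∅ = {p.2} := by
    rw [← Finset.bot_eq_empty, symmDiff_bot]
  rw [this]
  simp

lemma tendsto_ind : Filter.Tendsto (fun p : Σ j : ℕ, Fin (2 ^ j) => ind p.1 {p.2})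
    Filter.cofinite (nhds 0) := by
  rw [Metric.tendsto_nhds]
  intro ε hε
  obtain ⟨n, hn⟩ := exists_pow_lt_of_lt_one hε (by norm_num : (1/2 : ℝ) < 1)
  rw [Filter.eventually_cofinite]
  have hfin : (Finset.sigma (Finset.range n) (fun j => (Finset.univ : Finset (Fin (2 ^ j)))) :
      Set (Σ j : ℕ, Fin (2 ^ j))).Finite := Finset.finite_toSet _
  refine hfin.subset ?_
  intro p hp
  simp only [Set.mem_ofPred_eq, norm_ind_single, not_lt] at hp
  simp only [Finset.coe_sigma, Finset.coe_range, Finset.coe_univ]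
  by_contra hcon
  have hnp : n ≤ p.1 := by
    by_contra h
    apply hcon
    simp only [Set.mem_sigma_iff, Set.mem_Iio, Set.mem_univ, and_true]
    omega
  have : (1:ℝ) / 2 ^ p.1 ≤ (1 / 2) ^ n := by
    rw [one_div_pow]
    apply one_div_le_one_div_of_le (by positivity)
    exact pow_le_pow_right₀ (by norm_num) hnp
  linarith

lemma isCompact_T : IsCompact T := tendsto_ind.isCompact_insert_range_of_cofinite

lemma countable_T : T.Countable := (Set.countable_range _).insert _

lemma posDefSpace_T : PosDefSpace T := by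
  intro A _
  obtain ⟨J, s, hs, hd⟩ := exists_cube A
  exact posDef_of_cube (by positivity) A s hs hd

lemma finMag_T_le (A : Finset T) : finMag A ≤ Real.exp (1 / 2) := by
  obtain ⟨J, s, hs, hd⟩ := exists_cube A
  exact finMag_le_of_cube (by positivity) A s hs hd

lemma setMag_T_le (K : Set T) : setMag K ≤ (Real.exp (1 / 2) : ℝ) :=
  iSup_le fun A => EReal.coe_le_coe_iff.2 (finMag_T_le A.1)

lemma tractable_T : Tractable T where
  posDef := posDefSpace_T
  heineBorel := by
    intro K hK _
    have : CompactSpace T := isCompact_iff_compactSpace.1 isCompact_T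
    exact hK.isCompact
  magFinite := fun x r _ => (setMag_T_le _).trans_lt (EReal.coe_lt_top _)

/-- The base point `0 ∈ T`. -/
noncomputable def p0 : T := ⟨0, Set.mem_insert _ _⟩

/-- The leaves of the star at level `j`. -/
noncomputable def leaf (j : ℕ) (k : Fin (2 ^ j)) : T :=
  ⟨ind j {k}, Set.mem_insert_of_mem _ ⟨⟨j, k⟩, rfl⟩⟩

open Classical in
/-- The star at level `j`. -/
noncomputable def star' (j : ℕ) : Finset T := insert p0 (Finset.univ.image (leaf j))

lemma dist_leaf_p0 (j : ℕ) (k : Fin (2 ^ j)) : dist (leaf j k) p0 = 1 / 2 ^ j :=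
  norm_ind_single ⟨j, k⟩

lemma dist_leaf_leaf (j : ℕ) {k l : Fin (2 ^ j)} (h : k ≠ l) :
    dist (leaf j k) (leaf j l) = 2 / 2 ^ j := by
  rw [Subtype.dist_eq]
  simp only [leaf]
  rw [dist_ind]
  have : symmDiff ({k} : Finset (Fin (2 ^ j))) {l} = {k, l} := by
    ext x
    simp only [Finset.mem_symmDiff, Finset.mem_singleton, Finset.mem_insert]
    constructor
    · rintro (⟨h1, _⟩ | ⟨h1, _⟩)
      · exact Or.inl h1
      · exact Or.inr h1
    · rintro (h1 | h1)
      · exact Or.inl ⟨h1, fun h2 => h (h1.symm.trans h2)⟩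
      · exact Or.inr ⟨h1, fun h2 => h (h2.symm.trans h1)⟩
  rw [this, Finset.card_pair h]
  push_cast
  rfl

lemma leaf_injective (j : ℕ) : Function.Injective (leaf j) := by
  intro k l hkl
  by_contra h
  have h1 := dist_leaf_leaf j h
  rw [hkl, dist_self] at h1
  have : (0:ℝ) < 2 / 2 ^ j := by positivity
  linarith

lemma leaf_ne_p0 (j : ℕ) (k : Fin (2 ^ j)) : leaf j k ≠ p0 := by
  intro h
  have h1 := dist_leaf_p0 j k
  rw [h, dist_self] at h1
  have : (0:ℝ) < 1 / 2 ^ j := by positivity
  linarith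

lemma sum_star {j : ℕ} (f : T → ℝ) :
    ∑ a : star' j, f a = f p0 + ∑ k : Fin (2 ^ j), f (leaf j k) := by
  classical
  rw [Finset.sum_coe_sort (star' j) f, star', Finset.sum_insert, Finset.sum_image]
  · intro a _ b _ h
    exact leaf_injective j h
  · simp only [Finset.mem_image, Finset.mem_univ, true_and, not_exists]
    exact fun k => leaf_ne_p0 j k

lemma finMag_star_ge (j : ℕ) : 5 / 4 ≤ finMag (star' j) := by
  classical
  set n : ℝ := 2 ^ j with hn
  have hn1 : 1 ≤ n := one_le_pow₀ (by norm_num)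
  have hn0 : 0 < n := by linarith
  set q : ℝ := Real.exp (-(1 / n)) with hq
  have hq0 : 0 < q := Real.exp_pos _
  have hq1 : q < 1 := by
    have h1 : Real.exp (-(1 / n)) < Real.exp 0 := by
      apply Real.exp_lt_exp.2
      have : 0 < 1 / n := by positivity
      linarith
    rwa [Real.exp_zero] at h1
  have hne : (star' j).Nonempty := ⟨p0, by simp [star']⟩
  let W : T → ℝ := fun t => if t = p0 then 1 - n * q / (1 + q) else 1 / (1 + q)
  have hW0 : W p0 = 1 - n * q / (1 + q) := by simp [W]
  have hWl : ∀ k, W (leaf j k) = 1 / (1 + q) := fun k => by simp [W, leaf_ne_p0]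
  have e00 : Real.exp (-dist p0 p0) = 1 := by simp
  have e0l : ∀ k, Real.exp (-dist p0 (leaf j k)) = q := fun k => by
    rw [dist_comm, dist_leaf_p0]
  have el0 : ∀ k, Real.exp (-dist (leaf j k) p0) = q := fun k => by
    rw [dist_leaf_p0]
  have ell : ∀ k l, k ≠ l → Real.exp (-dist (leaf j k) (leaf j l)) = q ^ 2 := fun k l h => by
    rw [dist_leaf_leaf j h, hq, ← Real.exp_nat_mul]
    congr 1
    push_cast
    ring
  have hw : (simMat (star' j)).mulVec (fun a => W a) = 1 := by
    funext a
    have hrow : (simMat (star' j)).mulVec (fun a => W a) a =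
        Real.exp (-dist (a : T) p0) * W p0 +
          ∑ k, Real.exp (-dist (a : T) (leaf j k)) * W (leaf j k) := by
      simp only [Matrix.mulVec, dotProduct, simMat]
      exact sum_star (fun t => Real.exp (-dist (a : T) t) * W t)
    rw [hrow, hW0]
    simp_rw [hWl]
    have ha := a.2
    simp only [star', Finset.mem_insert, Finset.mem_image, Finset.mem_univ, true_and] at ha
    rcases ha with h | ⟨k, h⟩
    · rw [h, e00]
      simp_rw [e0l]
      rw [Finset.sum_const, Finset.card_univ, Fintype.card_fin, nsmul_eq_mul]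
      push_cast
      rw [← hn]
      simp only [Pi.one_apply]
      field_simp
      ring
    · have hterm : ∀ l, Real.exp (-dist (leaf j k) (leaf j l)) * (1 / (1 + q))
          = q ^ 2 * (1 / (1 + q)) + (if k = l then (1 - q ^ 2) * (1 / (1 + q)) else 0) := by
        intro l
        by_cases hkl : k = l
        · subst hkl
          simp only [dist_self, neg_zero, Real.exp_zero, if_true]
          ring
        · rw [ell k l hkl, if_neg hkl, add_zero]
      rw [← h, el0]
      simp_rw [hterm]
      rw [Finset.sum_add_distrib, Finset.sum_ite_eq, if_pos (Finset.mem_univ _),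
        Finset.sum_const, Finset.card_univ, Fintype.card_fin, nsmul_eq_mul]
      push_cast
      rw [← hn]
      simp only [Pi.one_apply]
      field_simp
      ring
  rw [finMag_eq_sum (posDefSpace_T _ hne) _ hw, sum_star (fun t => W t), hW0]
  simp_rw [hWl]
  rw [Finset.sum_const, Finset.card_univ, Fintype.card_fin, nsmul_eq_mul]
  push_cast
  rw [← hn]
  have h1 : 1 - n * q / (1 + q) + n * (1 / (1 + q)) = 1 + n * (1 - q) / (1 + q) := by
    field_simp
    ring
  rw [h1]
  -- `n (1 - q) ≥ 1/2`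
  have h2 : q ≤ 1 / (1 + 1 / n) := by
    rw [hq, Real.exp_neg, ← one_div]
    apply one_div_le_one_div_of_le (by positivity)
    have := Real.add_one_le_exp (1 / n)
    linarith
  have h3 : 1 / (1 + 1 / n) = n / (n + 1) := by
    field_simp
  have h4 : 1 / 2 ≤ n * (1 - q) := by
    rw [h3] at h2
    have h5 : n * (1 - q) ≥ n * (1 - n / (n + 1)) := by
      apply mul_le_mul_of_nonneg_left _ hn0.le
      linarith
    have h6 : n * (1 - n / (n + 1)) = n / (n + 1) := by
      field_simp
      ring
    have h7 : 1 / 2 ≤ n / (n + 1) := by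
      rw [div_le_div_iff₀ (by norm_num) (by positivity)]
      linarith
    linarith
  have h8 : 1 / 4 ≤ n * (1 - q) / (1 + q) := by
    rw [div_le_div_iff₀ (by norm_num) (by positivity)]
    nlinarith
  linarith


/-- The star at level `j` as a point of `FinPlus T`. -/
noncomputable def starFin (j : ℕ) : FinPlus T :=
  ⟨⟨⟨(star' j : Set T), (Finset.finite_toSet _).isCompact⟩, ⟨p0, by simp [star']⟩⟩,
    show ((star' j : Finset T) : Set T).Finite from Finset.finite_toSet _⟩

lemma starFin_toFinset (j : ℕ) : (starFin j).2.toFinset = star' j := by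
  ext x
  rw [Set.Finite.mem_toFinset]
  exact Iff.rfl

lemma magFin_star_ge (j : ℕ) : 5 / 4 ≤ magFin T (starFin j) := by
  rw [magFin, starFin_toFinset]
  exact finMag_star_ge j

lemma finMag_singleton {M : Type*} [MetricSpace M] (p : M) : finMag ({p} : Finset M) = 1 := by
  classical
  have h : simMat ({p} : Finset M) = 1 := by
    ext a b
    have hab : a = b := by
      apply Subtype.ext
      rw [Finset.mem_singleton.1 a.2, Finset.mem_singleton.1 b.2]
    subst hab
    simp [simMat]
  unfold finMag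
  rw [h]
  have h1 : (1 : Matrix ({p} : Finset M) ({p} : Finset M) ℝ)⁻¹ = 1 := inv_one
  rw [h1]
  simp [Matrix.one_apply]

lemma magFin_singleton (p : T) : magFin T (finSingleton p) = 1 := by
  have : (finSingleton p).2.toFinset = {p} := by
    ext x
    simp [finSingleton]
  rw [magFin, this, finMag_singleton]

lemma setMag_singleton (p : T) : setMag ({p} : Set T) = 1 := by
  apply le_antisymm
  · refine iSup_le fun A => ?_
    have : (A : Finset T) = {p} := by
      apply Finset.eq_singleton_iff_unique_mem.2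
      obtain ⟨x, hx⟩ := A.2.1
      have h1 : ∀ y ∈ (A : Finset T), y = p := fun y hy => A.2.2 hy
      exact ⟨h1 x hx ▸ hx, h1⟩
    rw [this, finMag_singleton]
    simp
  · refine le_iSup_of_le ⟨{p}, Finset.singleton_nonempty p, by simp⟩ ?_
    simp [finMag_singleton]

lemma magCmp_singleton (p : T) : magCmp T {p} = 1 := by
  have h : ((({p} : NonemptyCompacts T) : Set T)) = {p} := rfl
  rw [magCmp, h, setMag_singleton]
  simp

lemma magCmp_star_ge (j : ℕ) : 5 / 4 ≤ magCmp T (starFin j).1 := by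
  have hle : ((5 / 4 : ℝ) : EReal) ≤ setMag ((starFin j).1 : Set T) := by
    refine le_trans (EReal.coe_le_coe_iff.2 (finMag_star_ge j)) ?_
    refine le_iSup_of_le ⟨star' j, ⟨p0, by simp [star']⟩, ?_⟩ le_rfl
    exact subset_rfl
  have hlt : setMag ((starFin j).1 : Set T) ≠ ⊤ :=
    ((setMag_T_le _).trans_lt (EReal.coe_lt_top _)).ne
  have := EReal.toReal_le_toReal hle (EReal.coe_ne_bot _) hlt
  simpa [magCmp] using this

lemma dist_starFin (j : ℕ) : dist (starFin j).1 ({p0} : NonemptyCompacts T) ≤ 1 / 2 ^ j := by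
  rw [Metric.NonemptyCompacts.dist_eq]
  have h : ((({p0} : NonemptyCompacts T) : Set T)) = {p0} := rfl
  rw [h]
  have hpos : (0:ℝ) ≤ 1 / 2 ^ j := by positivity
  apply Metric.hausdorffDist_le_of_mem_dist hpos
  · intro x hx
    refine ⟨p0, rfl, ?_⟩
    have hx' : x ∈ star' j := hx
    simp only [star', Finset.mem_insert, Finset.mem_image, Finset.mem_univ, true_and] at hx'
    rcases hx' with h | ⟨k, h⟩
    · rw [h, dist_self]; exact hpos
    · rw [← h, dist_leaf_p0]
  · intro x hx
    rw [Set.mem_singleton_iff] at hx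
    subst hx
    refine ⟨p0, ?_, by rw [dist_self]; exact hpos⟩
    change p0 ∈ star' j
    simp [star']

lemma tendsto_starCmp : Filter.Tendsto (fun j => (starFin j).1) Filter.atTop
    (nhds ({p0} : NonemptyCompacts T)) := by
  rw [Metric.tendsto_atTop]
  intro ε hε
  obtain ⟨n, hn⟩ := exists_pow_lt_of_lt_one hε (by norm_num : (1/2 : ℝ) < 1)
  refine ⟨n, fun m hm => ?_⟩
  refine (dist_starFin m).trans_lt ?_
  have : (1:ℝ) / 2 ^ m ≤ (1 / 2) ^ n := by
    rw [one_div_pow]
    apply one_div_le_one_div_of_le (by positivity)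
    exact pow_le_pow_right₀ (by norm_num) hm
  linarith

lemma tendsto_starFin : Filter.Tendsto starFin Filter.atTop (nhds (finSingleton p0)) := by
  rw [tendsto_subtype_rng]
  exact tendsto_starCmp

end Concrete

/-- There is a countable compact tractable subspace `T` of `L₁([0,1])` and a point `p ∈ T` such
that both magnitude functions are discontinuous at `{p}`. -/
theorem result :
    ∃ T : Set L1, T.Countable ∧ IsCompact T ∧ Tractable T ∧
      ∃ p : T, ¬ ContinuousAt (magFin T) (finSingleton p) ∧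
        ¬ ContinuousAt (magCmp T) ({p} : NonemptyCompacts T) := by
  refine ⟨T, countable_T, isCompact_T, tractable_T, p0, ?_, ?_⟩
  · intro h
    have h1 := h.tendsto.comp tendsto_starFin
    rw [magFin_singleton] at h1
    have h2 : (5 / 4 : ℝ) ≤ 1 := ge_of_tendsto' h1 magFin_star_ge
    norm_num at h2
  · intro h
    have h1 := h.tendsto.comp tendsto_starCmp
    rw [magCmp_singleton] at h1
    have h2 : (5 / 4 : ℝ) ≤ 1 := ge_of_tendsto' h1 magCmp_star_ge
    norm_num at h2

end Pool.Agent.Results.MP_17ecd9_gt.Discontinuity
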